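import Pool.Agent.H24.CL.TargetsK

/-!
# Lemma S for every `k ≥ 3` (row LS of clk_modules)
-/

set_option autoImplicit false

open Finset

namespace Pool.Agent.H68.CLK

open Pool.Agent.H24.CL

theorem cast_ne {q m : ℕ} (h0 : 0 < m) (h : m < q) : ((m : ℕ) : ZMod q) ≠ 0 := by
  intro h1
  rw [ZMod.natCast_eq_zero_iff] at h1
  exact absurd (Nat.le_of_dvd h0 h1) (by omega)

theorem Zvk_sub {k q : ℕ} (w w' : Fin k → ZMod q) (b : ZMod q) :
    Zvk (w - w') b = Zvk w b - Zvk w' b := by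
  unfold Zvk
  rw [← Finset.sum_sub_distrib]
  refine Finset.sum_congr rfl fun i _ => ?_
  rw [Pi.sub_apply]
  ring

theorem Zwk_sub {k q : ℕ} (w w' : Fin k → ZMod q) (b : ZMod q) :
    Zwk (w - w') b = Zwk w b - Zwk w' b := by
  unfold Zwk
  rw [← Finset.sum_sub_distrib]
  refine Finset.sum_congr rfl fun i _ => ?_
  rw [Pi.sub_apply]
  ring

/-- values on a vector whose coordinates from the second on vanish -/
theorem Zvk_two {m q : ℕ} (d : Fin (m + 2) → ZMod q) (h : ∀ j : Fin m, d j.succ.succ = 0)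
    (b : ZMod q) : Zvk d b = d 0 + 2 * b * d 1 := by
  unfold Zvk
  rw [Fin.sum_univ_succ, Fin.sum_univ_succ, Finset.sum_eq_zero fun j _ => by rw [h j, mul_zero]]
  simp

theorem Zwk_two {m q : ℕ} (d : Fin (m + 2) → ZMod q) (h : ∀ j : Fin m, d j.succ.succ = 0)
    (b : ZMod q) : Zwk d b = d 1 := by
  unfold Zwk
  rw [Fin.sum_univ_succ, Fin.sum_univ_succ, Finset.sum_eq_zero fun j _ => by rw [h j, mul_zero]]
  simp

theorem Zvk_four {m q : ℕ} (d : Fin (m + 4) → ZMod q)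
    (h : ∀ j : Fin m, d j.succ.succ.succ.succ = 0) (b : ZMod q) :
    Zvk d b = d 0 + 2 * b * d 1 + 3 * b ^ 2 * d 2 + 4 * b ^ 3 * d 3 := by
  unfold Zvk
  rw [Fin.sum_univ_succ, Fin.sum_univ_succ, Fin.sum_univ_succ, Fin.sum_univ_succ,
    Finset.sum_eq_zero fun j _ => by rw [h j, mul_zero]]
  have e2 : (Fin.succ (Fin.succ (0 : Fin (m + 2)))) = (2 : Fin (m + 4)) := rfl
  have e3 : (Fin.succ (Fin.succ (Fin.succ (0 : Fin (m + 1))))) = (3 : Fin (m + 4)) := rfl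
  have e1 : (Fin.succ (0 : Fin (m + 3))) = (1 : Fin (m + 4)) := rfl
  simp only [e1, e2, e3]
  have v0 : ((0 : Fin (m + 4)) : ℕ) = 0 := rfl
  have v1 : ((1 : Fin (m + 4)) : ℕ) = 1 := rfl
  have v2 : ((2 : Fin (m + 4)) : ℕ) = 2 := rfl
  have v3 : ((3 : Fin (m + 4)) : ℕ) = 3 := rfl
  rw [v0, v1, v2, v3]
  push_cast
  ring

theorem Zwk_four {m q : ℕ} (d : Fin (m + 4) → ZMod q)
    (h : ∀ j : Fin m, d j.succ.succ.succ.succ = 0) (b : ZMod q) :
    Zwk d b = d 1 + 3 * b * d 2 + 6 * b ^ 2 * d 3 := by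
  unfold Zwk
  rw [Fin.sum_univ_succ, Fin.sum_univ_succ, Fin.sum_univ_succ, Fin.sum_univ_succ,
    Finset.sum_eq_zero fun j _ => by rw [h j, mul_zero]]
  have e2 : (Fin.succ (Fin.succ (0 : Fin (m + 2)))) = (2 : Fin (m + 4)) := rfl
  have e3 : (Fin.succ (Fin.succ (Fin.succ (0 : Fin (m + 1))))) = (3 : Fin (m + 4)) := rfl
  have e1 : (Fin.succ (0 : Fin (m + 3))) = (1 : Fin (m + 4)) := rfl
  simp only [e1, e2, e3]
  have v0 : ((0 : Fin (m + 4)) : ℕ) = 0 := rfl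
  have v1 : ((1 : Fin (m + 4)) : ℕ) = 1 := rfl
  have v2 : ((2 : Fin (m + 4)) : ℕ) = 2 := rfl
  have v3 : ((3 : Fin (m + 4)) : ℕ) = 3 := rfl
  rw [v0, v1, v2, v3]
  have c0 : Nat.choose (0 + 1) 2 = 0 := rfl
  have c1 : Nat.choose (1 + 1) 2 = 1 := rfl
  have c2 : Nat.choose (2 + 1) 2 = 3 := rfl
  have c3 : Nat.choose (3 + 1) 2 = 6 := rfl
  rw [c0, c1, c2, c3]
  push_cast
  ring

variable {q : ℕ} [Fact q.Prime]

/-- the fibre of `π_b` -/
theorem fib_le {m : ℕ} (b v u : ZMod q) :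
    (univ.filter fun w : Fin (m + 2) → ZMod q => Zvk w b = v ∧ Zwk w b = u).card ≤ q ^ m := by
  classical
  have h1 : (univ : Finset (Fin m → ZMod q)).card = q ^ m := by
    rw [Finset.card_univ, Fintype.card_fun, ZMod.card, Fintype.card_fin]
  rw [← h1]
  refine Finset.card_le_card_of_injOn (fun w j => w j.succ.succ)
    (fun _ _ => Finset.mem_coe.2 (Finset.mem_univ _)) ?_
  intro w hw w' hw' h
  have g := (Finset.mem_filter.1 (Finset.mem_coe.1 hw)).2
  have g' := (Finset.mem_filter.1 (Finset.mem_coe.1 hw')).2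
  have h2 : ∀ j : Fin m, (w - w') j.succ.succ = 0 := by
    intro j
    rw [Pi.sub_apply, sub_eq_zero]
    exact congrFun h j
  have a1 := Zvk_two (w - w') h2 b
  have a2 := Zwk_two (w - w') h2 b
  rw [Zvk_sub, g.1, g'.1, sub_self] at a1
  rw [Zwk_sub, g.2, g'.2, sub_self] at a2
  rw [← a2, mul_zero, add_zero] at a1
  have h3 : w - w' = 0 := by
    funext i
    refine Fin.cases a1.symm (fun i => ?_) i
    refine Fin.cases a2.symm (fun j => ?_) i
    exact h2 j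
  exact sub_eq_zero.1 h3

/-- the fibre of `π_b`, exactly -/
theorem fib_eq {m : ℕ} (b v u : ZMod q) :
    (univ.filter fun w : Fin (m + 2) → ZMod q => Zvk w b = v ∧ Zwk w b = u).card = q ^ m := by
  classical
  have h1 : ∑ p : ZMod q × ZMod q,
      (univ.filter fun w : Fin (m + 2) → ZMod q => Zvk w b = p.1 ∧ Zwk w b = p.2).card =
      ∑ _p : ZMod q × ZMod q, q ^ m := by
    rw [Finset.sum_const, Finset.card_univ, Fintype.card_prod, ZMod.card, smul_eq_mul]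
    have h2 := Finset.card_eq_sum_card_fiberwise (f := fun w : Fin (m + 2) → ZMod q =>
      (Zvk w b, Zwk w b)) (s := univ) (t := (univ : Finset (ZMod q × ZMod q)))
      (fun _ _ => Finset.mem_coe.2 (Finset.mem_univ _))
    rw [Finset.card_univ, Fintype.card_fun, ZMod.card, Fintype.card_fin] at h2
    rw [show q * q * q ^ m = q ^ (m + 2) by ring, h2]
    refine Finset.sum_congr rfl fun p _ => ?_
    congr 1
    ext w
    rw [Finset.mem_filter, Finset.mem_filter, Prod.ext_iff]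
  have h3 := (Finset.sum_eq_sum_iff_of_le fun (p : ZMod q × ZMod q) _ =>
    fib_le (m := m) b p.1 p.2).1 h1
  exact h3 (v, u) (Finset.mem_univ _)

/-- the fibre of a pair of projections -/
theorem fib2_le {m : ℕ} (hq : 4 < q) (b b1 v u v1 u1 : ZMod q) (hb : b ≠ b1) :
    (univ.filter fun w : Fin (m + 4) → ZMod q => (Zvk w b = v ∧ Zwk w b = u) ∧
      (Zvk w b1 = v1 ∧ Zwk w b1 = u1)).card ≤ q ^ m := by
  classical
  have h1 : (univ : Finset (Fin m → ZMod q)).card = q ^ m := by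
    rw [Finset.card_univ, Fintype.card_fun, ZMod.card, Fintype.card_fin]
  have k2 : (2 : ZMod q) ≠ 0 := by
    have := cast_ne (q := q) (m := 2) (by norm_num) (by omega)
    exact_mod_cast this
  have k3 : (3 : ZMod q) ≠ 0 := by
    have := cast_ne (q := q) (m := 3) (by norm_num) (by omega)
    exact_mod_cast this
  have kb : b - b1 ≠ 0 := sub_ne_zero.2 hb
  rw [← h1]
  refine Finset.card_le_card_of_injOn (fun w j => w j.succ.succ.succ.succ)
    (fun _ _ => Finset.mem_coe.2 (Finset.mem_univ _)) ?_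
  intro w hw w' hw' h
  have g := (Finset.mem_filter.1 (Finset.mem_coe.1 hw)).2
  have g' := (Finset.mem_filter.1 (Finset.mem_coe.1 hw')).2
  have h2 : ∀ j : Fin m, (w - w') j.succ.succ.succ.succ = 0 := by
    intro j
    rw [Pi.sub_apply, sub_eq_zero]
    exact congrFun h j
  have a1 := Zvk_four (w - w') h2 b
  have a2 := Zwk_four (w - w') h2 b
  have a3 := Zvk_four (w - w') h2 b1
  have a4 := Zwk_four (w - w') h2 b1
  rw [Zvk_sub, g.1.1, g'.1.1, sub_self] at a1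
  rw [Zwk_sub, g.1.2, g'.1.2, sub_self] at a2
  rw [Zvk_sub, g.2.1, g'.2.1, sub_self] at a3
  rw [Zwk_sub, g.2.2, g'.2.2, sub_self] at a4
  obtain ⟨d, hd⟩ : ∃ d, d = w - w' := ⟨_, rfl⟩
  rw [← hd] at a1 a2 a3 a4 h2
  have e1 : d 2 + 2 * (b + b1) * d 3 = 0 := by
    have h5 : (3 * (b - b1)) * (d 2 + 2 * (b + b1) * d 3) = 0 := by
      linear_combination a4 - a2
    exact (mul_eq_zero.1 h5).resolve_left (mul_ne_zero k3 kb)
  have e2 : 2 * d 1 + 3 * (b + b1) * d 2 + 4 * (b ^ 2 + b * b1 + b1 ^ 2) * d 3 = 0 := by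
    have h5 : (b - b1) * (2 * d 1 + 3 * (b + b1) * d 2 +
        4 * (b ^ 2 + b * b1 + b1 ^ 2) * d 3) = 0 := by
      linear_combination a3 - a1
    exact (mul_eq_zero.1 h5).resolve_left kb
  have e3 : 3 * d 2 + 4 * (b1 + 2 * b) * d 3 = 0 := by
    have h5 : (b - b1) * (3 * d 2 + 4 * (b1 + 2 * b) * d 3) = 0 := by
      linear_combination (-1) * e2 - 2 * a2
    exact (mul_eq_zero.1 h5).resolve_left kb
  have d3 : d 3 = 0 := by
    have h5 : (2 * (b - b1)) * d 3 = 0 := by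
      linear_combination e3 - 3 * e1
    exact (mul_eq_zero.1 h5).resolve_left (mul_ne_zero k2 kb)
  have d2 : d 2 = 0 := by
    linear_combination e1 - 2 * (b + b1) * d3
  have d1 : d 1 = 0 := by
    linear_combination (-1) * a2 - 3 * b * d2 - 6 * b ^ 2 * d3
  have d0 : d 0 = 0 := by
    linear_combination (-1) * a1 - 2 * b * d1 - 3 * b ^ 2 * d2 - 4 * b ^ 3 * d3
  have h3 : w - w' = 0 := by
    rw [← hd]
    funext i
    refine Fin.cases d0 (fun i => ?_) i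
    refine Fin.cases d1 (fun i => ?_) i
    refine Fin.cases d2 (fun i => ?_) i
    refine Fin.cases d3 (fun j => ?_) i
    exact h2 j
  exact sub_eq_zero.1 h3

/-- indicator of the incidence -/
noncomputable def Ik {k : ℕ} (x : Fin k → ZMod q) (l : ZMod q × ZMod q × ZMod q) : ℝ :=
  if Zvk x l.1 = l.2.1 ∧ Zwk x l.1 = l.2.2 then 1 else 0

theorem sum_Ik {m : ℕ} (l : ZMod q × ZMod q × ZMod q) :
    ∑ x : Fin (m + 2) → ZMod q, Ik x l = (q : ℝ) ^ m := by
  unfold Ik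
  rw [Finset.sum_boole, fib_eq]
  push_cast
  rfl

theorem sum_IIk {m : ℕ} (hq : 4 < q) (l k : ZMod q × ZMod q × ZMod q) :
    ∑ x : Fin (m + 4) → ZMod q, Ik x l * Ik x k ≤
      (if l = k then (q : ℝ) ^ (m + 2) else 0) + (q : ℝ) ^ m := by
  have hm : (0 : ℝ) ≤ (q : ℝ) ^ m := by positivity
  by_cases h : l = k
  · rw [if_pos h, ← h]
    have h1 : ∀ x : Fin (m + 4) → ZMod q, Ik x l * Ik x l = Ik x l := by
      intro x
      unfold Ik
      split_ifs <;> norm_num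
    rw [Finset.sum_congr rfl fun x _ => h1 x, sum_Ik (m := m + 2)]
    linarith
  · rw [if_neg h, zero_add]
    have h1 : ∀ x : Fin (m + 4) → ZMod q, Ik x l * Ik x k =
        if (Zvk x l.1 = l.2.1 ∧ Zwk x l.1 = l.2.2) ∧ (Zvk x k.1 = k.2.1 ∧ Zwk x k.1 = k.2.2)
          then 1 else 0 := by
      intro x
      unfold Ik
      by_cases h1 : Zvk x l.1 = l.2.1 ∧ Zwk x l.1 = l.2.2 <;>
        by_cases h2 : Zvk x k.1 = k.2.1 ∧ Zwk x k.1 = k.2.2 <;> simp [h1, h2]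
    rw [Finset.sum_congr rfl fun x _ => h1 x, Finset.sum_boole]
    by_cases hb : l.1 = k.1
    · have h3 : (univ.filter fun x : Fin (m + 4) → ZMod q =>
          (Zvk x l.1 = l.2.1 ∧ Zwk x l.1 = l.2.2) ∧ (Zvk x k.1 = k.2.1 ∧ Zwk x k.1 = k.2.2)) =
          ∅ := by
        rw [Finset.filter_eq_empty_iff]
        rintro x _ ⟨⟨g1, g2⟩, g3, g4⟩
        apply h
        rw [← hb] at g3 g4
        exact Prod.ext hb (Prod.ext (g1.symm.trans g3) (g2.symm.trans g4))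
      rw [h3, Finset.card_empty]
      simp
    · have h3 := fib2_le (m := m) hq l.1 k.1 l.2.1 l.2.2 k.2.1 k.2.2 hb
      exact_mod_cast h3

theorem ls_four (m : ℕ) (hq4 : 4 < q) (S : ZMod q → Finset (ZMod q × ZMod q))
    (Y : Finset (Fin (m + 4) → ZMod q)) (n : ℝ) (hn : 0 < n)
    (hS : (∑ b, ((S b).card : ℝ)) * 2 ≤ n * (q : ℝ) ^ 2)
    (hY : ∀ w ∈ Y, ∃ D : Finset (ZMod q), n ≤ (D.card : ℝ) ∧
      ∀ b ∈ D, (Zvk w b, Zwk w b) ∈ S b) :
    (Y.card : ℝ) * n ^ 2 ≤ 4 * (q : ℝ) ^ (m + 2) * ∑ b, ((S b).card : ℝ) := by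
  classical
  have hq : (0 : ℝ) < q := by exact_mod_cast (Fact.out : q.Prime).pos
  obtain ⟨L, hL⟩ : ∃ L : Finset (ZMod q × ZMod q × ZMod q), L = univ.filter fun l => l.2 ∈ S l.1 :=
    ⟨_, rfl⟩
  obtain ⟨s, hs⟩ : ∃ s : ℝ, s = (L.card : ℝ) := ⟨_, rfl⟩
  have hsS : ∑ b, ((S b).card : ℝ) = s := by
    rw [hs, hL, Finset.card_filter, Fintype.sum_prod_type]
    push_cast
    refine Finset.sum_congr rfl fun b _ => ?_
    rw [Finset.sum_boole, Finset.filter_mem_eq_inter, Finset.univ_inter]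
  rw [hsS] at hS ⊢
  have h1 : ∑ x : Fin (m + 4) → ZMod q, ∑ l ∈ L, Ik x l = s * (q : ℝ) ^ (m + 2) := by
    rw [Finset.sum_comm, Finset.sum_congr rfl fun l _ => sum_Ik (m := m + 2) l, Finset.sum_const,
      nsmul_eq_mul, hs]
  have h2 : ∑ x : Fin (m + 4) → ZMod q, (∑ l ∈ L, Ik x l) ^ 2 ≤
      s * (q : ℝ) ^ (m + 2) + s ^ 2 * (q : ℝ) ^ m := by
    have e1 : ∀ x : Fin (m + 4) → ZMod q, (∑ l ∈ L, Ik x l) ^ 2 =
        ∑ l ∈ L, ∑ l' ∈ L, Ik x l * Ik x l' := by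
      intro x
      rw [sq, Finset.sum_mul_sum]
    rw [Finset.sum_congr rfl fun x _ => e1 x, Finset.sum_comm]
    have e2 : ∀ l ∈ L, ∑ x : Fin (m + 4) → ZMod q, ∑ l' ∈ L, Ik x l * Ik x l' ≤
        (q : ℝ) ^ (m + 2) + s * (q : ℝ) ^ m := by
      intro l hl
      rw [Finset.sum_comm]
      refine (Finset.sum_le_sum fun l' _ => sum_IIk hq4 l l').trans (le_of_eq ?_)
      rw [Finset.sum_add_distrib, Finset.sum_ite_eq, if_pos hl, Finset.sum_const, nsmul_eq_mul, hs]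
    refine (Finset.sum_le_sum e2).trans (le_of_eq ?_)
    rw [Finset.sum_const, nsmul_eq_mul, ← hs]
    ring
  have h3 : ∑ x : Fin (m + 4) → ZMod q, ((∑ l ∈ L, Ik x l) - s / q ^ 2) ^ 2 ≤
      s * (q : ℝ) ^ (m + 2) := by
    have e1 : ∀ x : Fin (m + 4) → ZMod q, ((∑ l ∈ L, Ik x l) - s / q ^ 2) ^ 2 =
        (∑ l ∈ L, Ik x l) ^ 2 -
        2 * (s / q ^ 2) * (∑ l ∈ L, Ik x l) + (s / q ^ 2) ^ 2 := fun x => by ring
    rw [Finset.sum_congr rfl fun x _ => e1 x, Finset.sum_add_distrib, Finset.sum_sub_distrib,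
      ← Finset.mul_sum, h1, Finset.sum_const, Finset.card_univ, Fintype.card_fun, ZMod.card,
      Fintype.card_fin, nsmul_eq_mul]
    push_cast
    have e2 : 2 * (s / (q : ℝ) ^ 2) * (s * (q : ℝ) ^ (m + 2)) = 2 * (s ^ 2 * (q : ℝ) ^ m) := by
      rw [pow_add]
      field_simp
    have e3 : (q : ℝ) ^ (m + 4) * (s / (q : ℝ) ^ 2) ^ 2 = s ^ 2 * (q : ℝ) ^ m := by
      rw [pow_add]
      field_simp
    rw [e2, e3]
    linarith
  have h4 : ∀ x ∈ Y, n / 2 ≤ (∑ l ∈ L, Ik x l) - s / q ^ 2 := by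
    intro x hx
    obtain ⟨D, hD, hDS⟩ := hY x hx
    have e1 : (D.card : ℝ) ≤ ∑ l ∈ L, Ik x l := by
      unfold Ik
      rw [Finset.sum_boole]
      have e2 : D.card ≤ (L.filter fun l => Zvk x l.1 = l.2.1 ∧ Zwk x l.1 = l.2.2).card := by
        refine Finset.card_le_card_of_injOn (fun b => (b, Zvk x b, Zwk x b)) ?_ ?_
        · intro b hb
          rw [Finset.mem_coe, Finset.mem_filter, hL, Finset.mem_filter]
          exact ⟨⟨Finset.mem_univ _, hDS b hb⟩, rfl, rfl⟩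
        · intro b _ b' _ h
          exact congrArg Prod.fst h
      exact_mod_cast e2
    have e3 : s / (q : ℝ) ^ 2 ≤ n / 2 := by
      rw [div_le_iff₀ (by positivity)]
      linarith
    linarith
  have h5 : (Y.card : ℝ) * (n / 2) ^ 2 ≤ s * (q : ℝ) ^ (m + 2) := by
    refine le_trans ?_ h3
    refine le_trans ?_ (Finset.sum_le_sum_of_subset_of_nonneg (Finset.subset_univ Y)
      fun _ _ _ => sq_nonneg _)
    rw [← nsmul_eq_mul, ← Finset.sum_const]
    refine Finset.sum_le_sum fun x hx => ?_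
    have := h4 x hx
    exact pow_le_pow_left₀ (by positivity) this 2
  nlinarith

theorem Zvk_three (w : Fin 3 → ZMod q) (b : ZMod q) : Zvk w b = Zv w b := by
  unfold Zvk Zv
  rw [Fin.sum_univ_three]
  have v0 : ((0 : Fin 3) : ℕ) = 0 := rfl
  have v1 : ((1 : Fin 3) : ℕ) = 1 := rfl
  have v2 : ((2 : Fin 3) : ℕ) = 2 := rfl
  rw [v0, v1, v2]
  push_cast
  ring

theorem Zwk_three (w : Fin 3 → ZMod q) (b : ZMod q) : Zwk w b = Zw w b := by
  unfold Zwk Zw
  rw [Fin.sum_univ_three]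
  have v0 : ((0 : Fin 3) : ℕ) = 0 := rfl
  have v1 : ((1 : Fin 3) : ℕ) = 1 := rfl
  have v2 : ((2 : Fin 3) : ℕ) = 2 := rfl
  have c0 : Nat.choose (0 + 1) 2 = 0 := rfl
  have c1 : Nat.choose (1 + 1) 2 = 1 := rfl
  have c2 : Nat.choose (2 + 1) 2 = 3 := rfl
  rw [v0, v1, v2, c0, c1, c2]
  push_cast
  ring

theorem pf_LS (hLS : T_LS) : TK_LS := by
  intro k q _ hk hkq S Y n hn hS hY
  have hq0 : (0 : ℝ) ≤ (q : ℝ) := Nat.cast_nonneg q
  have hs0 : 0 ≤ ∑ b, ((S b).card : ℝ) := Finset.sum_nonneg fun _ _ => Nat.cast_nonneg _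
  rcases Nat.lt_or_ge k 4 with h4 | h4
  · have h3 : k = 3 := by omega
    subst h3
    have h5 := hLS q (by omega) S Y n hn hS (by
      intro w hw
      obtain ⟨D, h1, h2⟩ := hY w hw
      refine ⟨D, h1, fun b hb => ?_⟩
      rw [← Zvk_three, ← Zwk_three]
      exact h2 b hb)
    refine h5.trans (le_of_eq ?_)
    norm_num
  · obtain ⟨m, rfl⟩ : ∃ m, k = m + 4 := ⟨k - 4, by omega⟩
    have h5 := ls_four m (by omega) S Y n hn hS hY
    refine h5.trans ?_
    have e : m + 4 - 2 = m + 2 := by omega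
    rw [e]
    refine mul_le_mul_of_nonneg_right (mul_le_mul_of_nonneg_right ?_ (by positivity)) hs0
    push_cast
    have : (0 : ℝ) ≤ m := Nat.cast_nonneg m
    linarith

end Pool.Agent.H68.CLK
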