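import Pool.Agent.H24.CL.TargetsK

/-!
# Johnson's bound in a coset of `H k q 2` (row JO of clk_modules)
-/

set_option autoImplicit false

open Finset

namespace Pool.Agent.H68.CLK

open Pool.Agent.H24.CL

/-- abstract form of Johnson's bound -/
theorem johnson {ι κ : Type} [DecidableEq ι] (Y : Finset ι) (Pf : Finset κ) (f : ι → κ → ℝ)
    (d : ι → ℝ) (c n : ℝ) (_hc : 0 ≤ c) (hI : ∀ y ∈ Y, ∑ p ∈ Pf, f y p = d y)
    (hff : ∀ y ∈ Y, ∀ y' ∈ Y, ∑ p ∈ Pf, f y p * f y' p ≤ (if y = y' then d y else 0) + c)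
    (hn : 0 < n) (hd : ∀ y ∈ Y, n ≤ d y) (hP : 4 * c * (Pf.card : ℝ) ≤ n ^ 2) :
    n * (Y.card : ℝ) ≤ 2 * (Pf.card : ℝ) := by
  set m : κ → ℝ := fun p => ∑ w ∈ Y, f w p with hm
  set I : ℝ := ∑ w ∈ Y, d w with hIdef
  have hmI : ∑ p ∈ Pf, m p = I := by
    rw [hm]
    simp only
    rw [Finset.sum_comm, hIdef]
    exact Finset.sum_congr rfl hI
  have hm2 : ∑ p ∈ Pf, m p ^ 2 ≤ I + c * (Y.card : ℝ) ^ 2 := by
    have e1 : ∀ p ∈ Pf, m p ^ 2 = ∑ w ∈ Y, ∑ w' ∈ Y, f w p * f w' p := by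
      intro p _
      rw [hm]
      simp only
      rw [sq, Finset.sum_mul_sum]
    rw [Finset.sum_congr rfl e1, Finset.sum_comm]
    have e2 : ∀ w ∈ Y, ∑ p ∈ Pf, ∑ w' ∈ Y, f w p * f w' p ≤ d w + c * (Y.card : ℝ) := by
      intro w hw
      rw [Finset.sum_comm]
      calc ∑ w' ∈ Y, ∑ p ∈ Pf, f w p * f w' p
          ≤ ∑ w' ∈ Y, ((if w = w' then d w else 0) + c) :=
            Finset.sum_le_sum fun w' hw' => hff w hw w' hw'
        _ = d w + c * (Y.card : ℝ) := by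
            rw [Finset.sum_add_distrib, Finset.sum_ite_eq, if_pos hw, Finset.sum_const,
              nsmul_eq_mul]
            ring
    calc ∑ w ∈ Y, ∑ p ∈ Pf, ∑ w' ∈ Y, f w p * f w' p
        ≤ ∑ w ∈ Y, (d w + c * (Y.card : ℝ)) := Finset.sum_le_sum e2
      _ = I + c * (Y.card : ℝ) ^ 2 := by
          rw [Finset.sum_add_distrib, Finset.sum_const, nsmul_eq_mul, hIdef]
          ring
  have hCS : I ^ 2 ≤ (Pf.card : ℝ) * (I + c * (Y.card : ℝ) ^ 2) := by
    have h1 := sq_sum_le_card_mul_sum_sq (s := Pf) (f := m)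
    rw [hmI] at h1
    refine le_trans h1 ?_
    exact mul_le_mul_of_nonneg_left hm2 (Nat.cast_nonneg _)
  have hnY : n * (Y.card : ℝ) ≤ I := by
    rw [hIdef]
    calc n * (Y.card : ℝ) = ∑ _w ∈ Y, n := by rw [Finset.sum_const, nsmul_eq_mul, mul_comm]
      _ ≤ ∑ w ∈ Y, d w := Finset.sum_le_sum fun w hw => hd w hw
  have hP0 : (0 : ℝ) ≤ Pf.card := Nat.cast_nonneg _
  have hY0 : (0 : ℝ) ≤ Y.card := Nat.cast_nonneg _
  have hI0 : 0 ≤ I := le_trans (by positivity) hnY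
  clear_value I
  have h1 : 4 * ((Pf.card : ℝ) * (c * (Y.card : ℝ) ^ 2)) ≤ I ^ 2 := by
    have a2 : (n * (Y.card : ℝ)) ^ 2 ≤ I ^ 2 := by
      have : 0 ≤ n * (Y.card : ℝ) := by positivity
      exact pow_le_pow_left₀ this hnY 2
    have a3 : 4 * c * (Pf.card : ℝ) * (Y.card : ℝ) ^ 2 ≤ n ^ 2 * (Y.card : ℝ) ^ 2 :=
      mul_le_mul_of_nonneg_right hP (by positivity)
    calc 4 * ((Pf.card : ℝ) * (c * (Y.card : ℝ) ^ 2)) =
          4 * c * (Pf.card : ℝ) * (Y.card : ℝ) ^ 2 := by ring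
      _ ≤ n ^ 2 * (Y.card : ℝ) ^ 2 := a3
      _ = (n * (Y.card : ℝ)) ^ 2 := by ring
      _ ≤ I ^ 2 := a2
  refine le_trans hnY ?_
  generalize (Pf.card : ℝ) = P at hCS hP0 h1 ⊢
  generalize (Y.card : ℝ) = y at hCS h1 hY0
  by_contra hcon
  push Not at hcon
  have hIpos : 0 < I := by linarith
  have h2 : P * (I + c * y ^ 2) = P * I + P * (c * y ^ 2) := by ring
  have h3 : I ^ 2 ≤ P * I + I ^ 2 / 4 := by linarith
  have h4 : P * I < I / 2 * I := by
    apply mul_lt_mul_of_pos_right _ hIpos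
    linarith
  nlinarith

theorem phi_mem_Ln (hHM : TK_HM) {k q : ℕ} (hq : 1 ≤ q) (b : ℕ) (h : X k) (hh : h ∈ H k q 2) :
    phi q b h ∈ Ln k q := by
  have h1 := (hHM k q hq).2.2.2.1 [b] h (by simp) (by simpa using hh)
  exact h1

theorem pf_JO (hTO : T_TO) (hSH : T_SH) (hHM : TK_HM) : TK_JO := by
  classical
  intro k q hk hqp hkq W V n G hn hG hV hW hnG a
  have hq1 : 1 ≤ q := hqp.one_lt.le
  have hHF : ∀ x : X k, x ∈ HF k q 2 ↔ x ∈ H k q 2 := (hTO k q hq1).2.1 2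
  have hqR : (0 : ℝ) < q := by exact_mod_cast hqp.pos
  -- the columns
  have hcc : ∀ b, (cc k q 2 b V a : ℝ) ≤ G := by
    intro b
    unfold cc
    refine hV _ ?_ ?_
    · intro y hy
      exact (Finset.mem_filter.1 hy).2
    · intro y hy y' hy'
      obtain ⟨h, hh, rfl⟩ := Finset.mem_image.1 (Finset.mem_filter.1 hy).1
      obtain ⟨h', hh', rfl⟩ := Finset.mem_image.1 (Finset.mem_filter.1 hy').1
      have e1 : phi q b (a + h) - phi q b (a + h') = phi q b (h - h') := by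
        rw [← map_sub]
        congr 1
        abel
      rw [e1]
      exact phi_mem_Ln hHM hq1 b _ (sub_mem ((hHF h).1 hh) ((hHF h').1 hh'))
  have hS : ∑ b ∈ Bs k q 2 W V a, (cc k q 2 b V a : ℝ) ≤ q * G := by
    have h1 : (Bs k q 2 W V a).card ≤ q := by
      have := Finset.card_le_card (Finset.filter_subset
        (fun b => ∃ h ∈ H k q 2, a + h ∈ W ∧ phi q b (a + h) ∈ V) (range q))
      rw [Finset.card_range] at this
      exact this
    calc ∑ b ∈ Bs k q 2 W V a, (cc k q 2 b V a : ℝ) ≤ ∑ _b ∈ Bs k q 2 W V a, G :=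
          Finset.sum_le_sum fun b _ => hcc b
      _ = ((Bs k q 2 W V a).card : ℝ) * G := by rw [Finset.sum_const, nsmul_eq_mul]
      _ ≤ q * G := mul_le_mul_of_nonneg_right (by exact_mod_cast h1) (by linarith)
  refine ⟨hS, ?_⟩
  intro Y hY hYd
  have hD : ∀ y ∈ Y, ∃ D : Finset ℕ, D ⊆ range q ∧ (∀ b ∈ D, phi q b y ∈ V) ∧ n ≤ (D.card : ℝ) :=
    fun y hy => hW y (hY y hy).1
  choose! D hD1 hD2 hD3 using hD
  have hBs : ∀ y ∈ Y, ∀ b ∈ D y, b ∈ Bs k q 2 W V a := by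
    intro y hy b hb
    unfold Bs
    rw [Finset.mem_filter]
    refine ⟨hD1 y hy hb, y - a, (hY y hy).2, ?_, ?_⟩
    · rw [add_sub_cancel]
      exact (hY y hy).1
    · rw [add_sub_cancel]
      exact hD2 y hy b hb
  obtain ⟨Cs, hCs⟩ : ∃ Cs : ℕ → Finset (X k), Cs = fun b =>
      ((HF k q 2).image fun h => phi q b (a + h)).filter fun v => v ∈ V := ⟨_, rfl⟩
  obtain ⟨Pf, hPf⟩ : ∃ Pf : Finset (Σ _ : ℕ, X k), Pf = (Bs k q 2 W V a).sigma Cs := ⟨_, rfl⟩
  have hPS : (Pf.card : ℝ) = ∑ b ∈ Bs k q 2 W V a, (cc k q 2 b V a : ℝ) := by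
    rw [hPf, Finset.card_sigma, hCs]
    push_cast
    refine Finset.sum_congr rfl fun b _ => ?_
    rfl
  have hmem : ∀ y ∈ Y, ∀ b ∈ D y, (⟨b, phi q b y⟩ : Σ _ : ℕ, X k) ∈ Pf := by
    intro y hy b hb
    rw [hPf, Finset.mem_sigma]
    refine ⟨hBs y hy b hb, ?_⟩
    rw [hCs]
    simp only
    rw [Finset.mem_filter, Finset.mem_image]
    refine ⟨⟨y - a, (hHF _).2 (hY y hy).2, ?_⟩, hD2 y hy b hb⟩
    rw [add_sub_cancel]
  rw [← hPS]
  refine johnson Y Pf (fun y p => if p.1 ∈ D y ∧ phi q p.1 y = p.2 then 1 else 0)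
    (fun y => ((D y).card : ℝ)) ((k : ℝ) - 1) n ?_ ?_ ?_ (by linarith) hD3 ?_
  · have : (2 : ℝ) ≤ k := by exact_mod_cast hk
    linarith
  · intro y hy
    rw [Finset.sum_boole]
    congr 1
    symm
    apply Finset.card_bij (fun b _ => (⟨b, phi q b y⟩ : Σ _ : ℕ, X k))
    · intro b hb
      rw [Finset.mem_filter]
      exact ⟨hmem y hy b hb, hb, rfl⟩
    · intro b _ b' _ h
      exact congrArg Sigma.fst h
    · intro p hp
      rw [Finset.mem_filter] at hp
      refine ⟨p.1, hp.2.1, ?_⟩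
      obtain ⟨p1, p2⟩ := p
      have h1 : phi q p1 y = p2 := hp.2.2
      rw [← h1]
  · intro y hy y' hy'
    have hk1 : (0 : ℝ) ≤ (k : ℝ) - 1 := by
      have : (2 : ℝ) ≤ k := by exact_mod_cast hk
      linarith
    by_cases h : y = y'
    · rw [if_pos h, ← h]
      have h1 : ∑ p ∈ Pf, (if p.1 ∈ D y ∧ phi q p.1 y = p.2 then (1 : ℝ) else 0) *
          (if p.1 ∈ D y ∧ phi q p.1 y = p.2 then (1 : ℝ) else 0) =
          ∑ p ∈ Pf, (if p.1 ∈ D y ∧ phi q p.1 y = p.2 then (1 : ℝ) else 0) := by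
        refine Finset.sum_congr rfl fun p _ => ?_
        split_ifs <;> norm_num
      rw [h1, Finset.sum_boole]
      have h2 : (Pf.filter fun p => p.1 ∈ D y ∧ phi q p.1 y = p.2).card ≤ (D y).card := by
        apply Finset.card_le_card_of_injOn (fun p => p.1)
        · intro p hp
          exact (Finset.mem_filter.1 (Finset.mem_coe.1 hp)).2.1
        · rintro ⟨p1, p2⟩ hp ⟨r1, r2⟩ hr h5
          have g1 := (Finset.mem_filter.1 (Finset.mem_coe.1 hp)).2.2
          have g2 := (Finset.mem_filter.1 (Finset.mem_coe.1 hr)).2.2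
          have h6 : p1 = r1 := h5
          subst h6
          have g1' : phi q p1 y = p2 := g1
          have g2' : phi q p1 y = r2 := g2
          rw [← g1', ← g2']
      have h3 : ((Pf.filter fun p => p.1 ∈ D y ∧ phi q p.1 y = p.2).card : ℝ) ≤
          ((D y).card : ℝ) := by exact_mod_cast h2
      linarith
    · rw [if_neg h, zero_add]
      set B : Finset ℕ := (range q).filter fun b => phi q b (y - y') = 0 with hB
      have hyy : y - y' ∈ H k q 2 := by
        have e : y - y' = (y - a) - (y' - a) := by abel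
        rw [e]
        exact sub_mem (hY y hy).2 (hY y' hy').2
      have h2 : B.card ≤ k - 1 := by
        refine hSH k q hqp hkq (y - y') ((hHM k q hq1).1 2 k _ hk hyy) (fun h1 => h (hYd y hy y' hy' h1))
          B ?_
        intro b hb
        rw [hB, Finset.mem_filter, Finset.mem_range] at hb
        exact hb
      have h3 : ∑ p ∈ Pf, (if p.1 ∈ D y ∧ phi q p.1 y = p.2 then (1 : ℝ) else 0) *
          (if p.1 ∈ D y' ∧ phi q p.1 y' = p.2 then (1 : ℝ) else 0) ≤ (B.card : ℝ) := by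
        have e1 : ∀ p ∈ Pf, (if p.1 ∈ D y ∧ phi q p.1 y = p.2 then (1 : ℝ) else 0) *
            (if p.1 ∈ D y' ∧ phi q p.1 y' = p.2 then (1 : ℝ) else 0) =
            if (p.1 ∈ D y ∧ phi q p.1 y = p.2) ∧ (p.1 ∈ D y' ∧ phi q p.1 y' = p.2) then 1
              else 0 := by
          intro p _
          by_cases g1 : p.1 ∈ D y ∧ phi q p.1 y = p.2
          · by_cases g2 : p.1 ∈ D y' ∧ phi q p.1 y' = p.2
            · rw [if_pos g1, if_pos g2, if_pos ⟨g1, g2⟩, mul_one]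
            · have g3 : ¬ ((p.1 ∈ D y ∧ phi q p.1 y = p.2) ∧
                  (p.1 ∈ D y' ∧ phi q p.1 y' = p.2)) := fun h => g2 h.2
              rw [if_neg g2, if_neg g3, mul_zero]
          · have g3 : ¬ ((p.1 ∈ D y ∧ phi q p.1 y = p.2) ∧
                  (p.1 ∈ D y' ∧ phi q p.1 y' = p.2)) := fun h => g1 h.1
            rw [if_neg g1, if_neg g3, zero_mul]
        rw [Finset.sum_congr rfl e1, Finset.sum_boole]
        have : ((Pf.filter fun p => (p.1 ∈ D y ∧ phi q p.1 y = p.2) ∧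
              (p.1 ∈ D y' ∧ phi q p.1 y' = p.2)).card) ≤ B.card := by
          apply Finset.card_le_card_of_injOn (fun p => p.1)
          · intro p hp
            have hp' := (Finset.mem_filter.mp (Finset.mem_coe.1 hp)).2
            show p.1 ∈ B
            rw [hB, Finset.mem_filter]
            refine ⟨hD1 y hy hp'.1.1, ?_⟩
            rw [map_sub, hp'.1.2, hp'.2.2, sub_self]
          · rintro ⟨p1, p2⟩ hp ⟨r1, r2⟩ hr h5
            have g1 := (Finset.mem_filter.1 (Finset.mem_coe.1 hp)).2.1.2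
            have g2 := (Finset.mem_filter.1 (Finset.mem_coe.1 hr)).2.1.2
            have h6 : p1 = r1 := h5
            subst h6
            have g1' : phi q p1 y = p2 := g1
            have g2' : phi q p1 y = r2 := g2
            rw [← g1', ← g2']
        exact_mod_cast this
      have h4 : (B.card : ℝ) ≤ (k : ℝ) - 1 := by
        have h5 : B.card + 1 ≤ k := by omega
        have h6 : ((B.card + 1 : ℕ) : ℝ) ≤ (k : ℝ) := by exact_mod_cast h5
        push_cast at h6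
        linarith
      linarith
  · rw [hPS]
    have hk1 : (0 : ℝ) ≤ (k : ℝ) - 1 := by
      have : (2 : ℝ) ≤ k := by exact_mod_cast hk
      linarith
    calc 4 * ((k : ℝ) - 1) * ∑ b ∈ Bs k q 2 W V a, (cc k q 2 b V a : ℝ)
        ≤ 4 * ((k : ℝ) - 1) * (q * G) := mul_le_mul_of_nonneg_left hS (by positivity)
      _ ≤ n ^ 2 := hnG

end Pool.Agent.H68.CLK
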